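import Pool.Agent.H66.GEO.Bas

/-!
# GEO, module GL: existence of the lifts `GG` of the strip maps

`G 0`: `ext` from the lift of `XS.ex`. `G (s + 1)`: `ext` from `G 0` at the crossing point `XS.cr s`. `ab`: `t ↦ G s (2 t)` lifts
`t ↦ ψ s (2 t) = F s (ψ (s + 1) t)` (`sub`), `pb` compares it with `G (s + 1)`; induction.
-/

set_option autoImplicit false

open Filter Topology Metric Set

namespace Pool.Agent.H66.GEO

theorem gg_ex {Q : Set ℂ} {Lf : Set ℂ → (ℂ → ℂ) → (ℂ → ℂ) → Prop} (hL : LS Q Lf) {th r : ℝ} {φ F : ℕ → ℂ → ℂ}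
    {ω α : ℕ → ℂ} {ψ : ℕ → ℂ → ℂ} (hX : XS Q Lf th r φ F ω α) (hP : PS th φ F ω α ψ) :
    ∃ G : ℕ → ℂ → ℂ, GG Lf th r ψ G := by
  have r0 : 0 < r := hX.th0.trans hX.thr
  have h2re : ∀ (s : ℕ) (t : ℂ), ((2 : ℂ) ^ s * t).re = 2 ^ s * t.re := by
    intro s t
    have : ((2 : ℂ) ^ s) = (((2 : ℝ) ^ s : ℝ) : ℂ) := by push_cast; rfl
    rw [this, Complex.re_ofReal_mul]
  -- the lift `G 0`
  have hG0 : ∃ G0 : ℂ → ℂ, Lf (Ss th 0) (ψ 0) G0 := by
    obtain ⟨S, H, G, u, x, hLf, hu, hx1, hxt, hH⟩ := hX.ex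
    have hx0 : x ≠ 0 := by
      intro h0
      rw [h0, norm_zero] at hxt
      exact absurd hxt (not_lt.2 hX.th0.le)
    have hlog : Complex.log x ∈ Ss th 0 := by
      rw [ss_mem, Complex.log_re, pow_zero, div_one]
      exact ⟨Real.log_lt_log hX.th0 hxt, Real.log_neg (norm_pos_iff.2 hx0) hx1⟩
    obtain ⟨G', hG', -⟩ := hL.ext hLf (Ss th 0) (ψ 0) u (Complex.log x) (st_open _ _) (st_conv _ _) (hP.dif 0)
      (fun v hv => ⟨ps_off hX hP 0 v hv, hP.der 0 v hv⟩) hu hlog (by rw [hP.zer, Complex.exp_log hx0, hH])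
    exact ⟨G', hG'⟩
  obtain ⟨G0, hG0⟩ := hG0
  -- the lifts `G (s + 1)`
  have hlk : ∀ s : ℕ, ∃ G' : ℂ → ℂ, Lf (Ss th (s + 1)) (ψ (s + 1)) G' ∧ ∃ t ∈ Ss th 0, ∃ t' ∈ Ss th (s + 1),
      t.re = Real.log r ∧ t'.re = Real.log r / 2 ^ (s + 1) ∧ ψ 0 t = ψ (s + 1) t' ∧ G0 t = G' t' := by
    intro s
    obtain ⟨x, y, hx, hy, hB, he⟩ := hX.cr s
    have hx0 : x ≠ 0 := by
      intro h0
      rw [h0, norm_zero] at hx
      exact absurd hx r0.ne
    have hlog : Complex.log x ∈ Ss th 0 := by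
      rw [ss_mem, Complex.log_re, pow_zero, div_one, hx]
      exact ⟨Real.log_lt_log hX.th0 hX.thr, Real.log_neg r0 hX.r1⟩
    have hyb : y ∈ ball (0 : ℂ) 1 := by simpa using hy
    obtain ⟨t', ht', hte⟩ := hP.sur (s + 1) y hyb (by rw [hB]; exact hX.thr)
    have hψ : ψ 0 (Complex.log x) = ψ (s + 1) t' := by
      rw [hP.zer, Complex.exp_log hx0, hte, he]
    obtain ⟨G', hG', hGe⟩ := hL.ext hG0 (Ss th (s + 1)) (ψ (s + 1)) (Complex.log x) t' (st_open _ _) (st_conv _ _)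
      (hP.dif (s + 1)) (fun v hv => ⟨ps_off hX hP (s + 1) v hv, hP.der (s + 1) v hv⟩) hlog ht' hψ.symm
    refine ⟨G', hG', Complex.log x, hlog, t', ht', ?_, ?_, hψ, hGe.symm⟩
    · rw [Complex.log_re, hx]
    · obtain ⟨x', hx', hB', he'⟩ := hP.lev (s + 1) t' ht'
      have hxy : x' = y := hX.iφ (s + 1) hx' hyb (by rw [← he', hte])
      rw [hxy] at hB'
      rw [hB', Complex.norm_exp, h2re] at hB
      rw [eq_div_iff (by positivity), ← hB, Real.log_exp]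
      ring
  choose Gs hGs hGlk using hlk
  let G : ℕ → ℂ → ℂ := fun n => Nat.casesOn n G0 Gs
  have hG : ∀ s, Lf (Ss th s) (ψ s) (G s) := by
    intro s
    cases s with
    | zero => exact hG0
    | succ n => exact hGs n
  refine ⟨G, hG, hGlk, ?_⟩
  intro s
  induction s with
  | zero => exact ⟨1, 0, one_ne_zero, fun t _ => by simp⟩
  | succ n ih =>
    obtain ⟨a, b, ha, hab⟩ := ih
    -- `t ↦ G n (2 t)` lifts `t ↦ F n (ψ (n + 1) t)`
    have h1 : Lf (Ss th (n + 1)) (fun u => F n (ψ (n + 1) u)) (fun u => G n (2 * u)) := by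
      refine hL.sub (hG n) (Ss th (n + 1)) (fun u => 2 * u) _ _ (st_open _ _) (st_conv _ _) ?_ ?_
      · exact (differentiable_id.const_mul 2).differentiableOn
      · intro u hu
        refine ⟨ss_half.1 hu, ?_, ?_, rfl⟩
        · have : HasDerivAt (fun u : ℂ => 2 * u) (2 * 1) u := (hasDerivAt_id u).const_mul 2
          rw [this.deriv]
          norm_num
        · exact hP.stp n u hu
    have h2 : ∀ u ∈ Ss th (n + 1), ψ (n + 1) u ∈ φ (n + 1) '' ball 0 1 := by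
      intro u hu
      obtain ⟨x, hx, -, he⟩ := hP.lev (n + 1) u hu
      exact ⟨x, hx, he.symm⟩
    obtain ⟨a', b', ha', hab'⟩ := hX.pb n (hG (n + 1)) h2 h1
    refine ⟨a * a', a * b' + b, mul_ne_zero ha ha', ?_⟩
    intro t ht
    have h3 := hab (2 * t) (ss_half.1 ht)
    have h4 := hab' t ht
    rw [pow_succ, mul_assoc, h3, h4]
    push_cast
    ring

end Pool.Agent.H66.GEO
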